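import Pool.Agent.H583_Fol.Final

/-!
# Holomorphic foliations of the polydisc which are not limits of algebraic foliations
-/

set_option autoImplicit false

namespace Pool.Agent.Results.MP_90485e_an.NoPolyRunge

open Filter Topology Set

/-- A `(1,0)`-form `α = ∑ᵢ aᵢ dzᵢ` on `ℂᵏ`, given by its coefficients: `α z i = aᵢ(z)`. -/
abbrev Form (k : ℕ) := (Fin k → ℂ) → Fin k → ℂ

/-- The unit polydisc `𝔻ᵏ`. -/
def polydisc (k : ℕ) : Set (Fin k → ℂ) := {z | ∀ i, ‖z i‖ < 1}

/-- `dzᵢ`, as an element of the exterior algebra. -/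
noncomputable def dz {k : ℕ} (i : Fin k) : ExteriorAlgebra ℂ (Fin k → ℂ) :=
  ExteriorAlgebra.ι ℂ (Pi.single i 1)

/-- The value of `α` at `z`, `∑ᵢ aᵢ(z) dzᵢ`. -/
noncomputable def val {k : ℕ} (α : Form k) (z : Fin k → ℂ) : ExteriorAlgebra ℂ (Fin k → ℂ) :=
  ∑ i, α z i • dz i

/-- The value of `∂α` at `z`, `∑ᵢ ∑ₗ (∂aₗ/∂zᵢ)(z) dzᵢ ∧ dzₗ`. -/
noncomputable def del {k : ℕ} (α : Form k) (z : Fin k → ℂ) : ExteriorAlgebra ℂ (Fin k → ℂ) :=
  ∑ i, ∑ l, (fderiv ℂ (fun w => α w l) z (Pi.single i 1)) • (dz i * dz l)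

/-- The Frobenius condition on `U`: `∂αⱼ ∧ α₁ ∧ ⋯ ∧ αₘ = 0` for all `j`. -/
def Frobenius {k m : ℕ} (α : Fin m → Form k) (U : Set (Fin k → ℂ)) : Prop :=
  ∀ z ∈ U, ∀ j, del (α j) z * (List.ofFn fun l => val (α l) z).prod = 0

/-- The forms `α₁, …, αₘ` are holomorphic on `U`, linearly independent at the points of a dense
subset of `U`, and satisfy the Frobenius condition on `U`. -/
def DefinesFoliation {k m : ℕ} (α : Fin m → Form k) (U : Set (Fin k → ℂ)) : Prop :=
  (∀ j, DifferentiableOn ℂ (α j) U) ∧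
    U ⊆ closure {z | z ∈ U ∧ LinearIndependent ℂ (fun j => α j z)} ∧ Frobenius α U

/-- All coefficients are polynomials. -/
def IsPolynomial {k : ℕ} (α : Form k) : Prop :=
  ∃ p : Fin k → MvPolynomial (Fin k) ℂ, ∀ z i, α z i = MvPolynomial.eval z (p i)

/-- `α` is a limit, uniformly on compact subsets of the unit polydisc, of tuples of polynomial forms
satisfying the Frobenius condition. -/
def PolyApproximable {k m : ℕ} (α : Fin m → Form k) : Prop :=
  ∃ β : ℕ → Fin m → Form k, (∀ n j, IsPolynomial (β n j)) ∧ (∀ n, Frobenius (β n) univ) ∧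
    ∀ j, ∀ K ⊆ polydisc k, IsCompact K → TendstoUniformlyOn (fun n => β n j) (α j) atTop K

/-- The assertion asked about in Q2. -/
def Q2 : Prop :=
  ∀ k d : ℕ, 1 < d → d < k → ∀ α : Fin (k - d) → Form k,
    DefinesFoliation α (polydisc k) → PolyApproximable α

theorem main (k m : ℕ) (hk : 3 ≤ k) (hm : m = 1) : ∃ α : Fin m → Form k, DefinesFoliation α univ ∧
    ∃ δ > 0, ∀ β : Fin m → Form k, (∀ j, IsPolynomial (β j)) → Frobenius β univ →
      ∃ j, ∃ z : Fin k → ℂ, (∀ i, ‖z i‖ ≤ 9 / 10) ∧ ∃ i, δ < ‖β j z i - α j z i‖ := by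
  subst hm
  refine ⟨fun _ => H583_Fol.mdl hk, ⟨fun _ => (H583_Fol.mdl_diff hk).differentiableOn, ?_, ?_⟩, ?_⟩
  · intro z _
    refine closure_mono ?_ (H583_Fol.mdl_dense hk z)
    intro w hw
    exact ⟨mem_univ _, LinearIndependent.of_subsingleton (0 : Fin 1) hw⟩
  · intro z _ j
    have h := H583_Fol.mdl_frob hk z
    rw [List.ofFn_succ, List.ofFn_zero, List.prod_cons, List.prod_nil, mul_one]
    exact h
  · obtain ⟨δ, hδ, h⟩ := H583_Fol.main_one hk
    refine ⟨δ, hδ, fun β hβ hF => ⟨0, ?_⟩⟩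
    refine h (β 0) (hβ 0) fun z => ?_
    have := hF z (mem_univ _) 0
    rw [List.ofFn_succ, List.ofFn_zero, List.prod_cons, List.prod_nil, mul_one] at this
    exact this

theorem not_approx {k m : ℕ} {α : Fin m → Form k} {δ : ℝ} (hδ : 0 < δ)
    (h : ∀ β : Fin m → Form k, (∀ j, IsPolynomial (β j)) → Frobenius β univ →
      ∃ j, ∃ z : Fin k → ℂ, (∀ i, ‖z i‖ ≤ 9 / 10) ∧ ∃ i, δ < ‖β j z i - α j z i‖) :
    ¬ PolyApproximable α := by
  rintro ⟨β, h1, h2, h3⟩
  set K : Set (Fin k → ℂ) := Set.pi univ (fun _ => Metric.closedBall 0 (9 / 10)) with hK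
  have hKc : IsCompact K := isCompact_univ_pi fun _ => isCompact_closedBall _ _
  have hKs : K ⊆ polydisc k := by
    intro z hz i
    have := hz i (mem_univ _)
    rw [mem_closedBall_zero_iff] at this
    linarith
  have h4 : ∀ᶠ n in atTop, ∀ j, ∀ z ∈ K, dist (α j z) (β n j z) < δ := by
    rw [eventually_all]
    intro j
    exact Metric.tendstoUniformlyOn_iff.1 (h3 j K hKs hKc) δ hδ
  obtain ⟨n, hn⟩ := h4.exists
  obtain ⟨j, z, hz, i, hi⟩ := h (β n) (h1 n) (h2 n)
  have h5 := hn j z (by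
    intro i _
    rw [mem_closedBall_zero_iff]
    exact hz i)
  have h6 : ‖β n j z i - α j z i‖ ≤ dist (α j z) (β n j z) := by
    rw [dist_comm, dist_eq_norm]
    exact norm_le_pi_norm (β n j z - α j z) i
  linarith

/-- **Q2 has a negative answer**, for every `k ≥ 3` with `d = k - 1`, even for restrictions of entire
forms. For every `k ≥ 3` there is an entire form `α` on `ℂᵏ` with `∂α ∧ α = 0`, nonzero at the points
of a dense set, which is not a limit, uniformly on compact subsets of the unit polydisc, of polynomial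
forms `β` with `∂β ∧ β = 0`. More precisely there is `δ > 0` such that every polynomial form `β` with
`∂β ∧ β = 0` has a coefficient which differs from that of `α` by more than `δ` at some point of the
closed polydisc of radius `9/10`. -/
theorem result (k : ℕ) (hk : 3 ≤ k) : ∃ α : Fin (k - (k - 1)) → Form k,
    DefinesFoliation α univ ∧ DefinesFoliation α (polydisc k) ∧ ¬ PolyApproximable α ∧
    ∃ δ > 0, ∀ β : Fin (k - (k - 1)) → Form k, (∀ j, IsPolynomial (β j)) → Frobenius β univ →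
      ∃ j, ∃ z : Fin k → ℂ, (∀ i, ‖z i‖ ≤ 9 / 10) ∧ ∃ i, δ < ‖β j z i - α j z i‖ := by
  obtain ⟨α, h1, δ, hδ, h2⟩ := main k (k - (k - 1)) hk (by omega)
  have hopen : IsOpen (polydisc k) := by
    have : polydisc k = Set.pi univ (fun _ => Metric.ball 0 1) := by
      ext z
      simp [polydisc]
    rw [this]
    exact isOpen_set_pi finite_univ fun _ _ => Metric.isOpen_ball
  refine ⟨α, h1, ⟨fun j => (h1.1 j).mono (subset_univ _), ?_, fun z _ => h1.2.2 z (mem_univ _)⟩,
    not_approx hδ h2, δ, hδ, h2⟩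
  intro z hz
  have h3 := hopen.inter_closure ⟨hz, h1.2.1 (mem_univ z)⟩
  refine closure_mono ?_ h3
  rintro w ⟨hw1, -, hw2⟩
  exact ⟨hw1, hw2⟩

/-- The assertion asked about in Q2 is false. -/
theorem not_Q2 : ¬ Q2 := by
  intro hQ
  obtain ⟨α, -, h1, h2, -⟩ := result 3 le_rfl
  exact h2 (hQ 3 2 (by norm_num) (by norm_num) α h1)

end Pool.Agent.Results.MP_90485e_an.NoPolyRunge
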